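import Pool.Agent.PVD.StmtsL

/-! MP_e25c73_gt, block L, rows GEA and GEH (helper65). -/

set_option autoImplicit false
open MeasureTheory

namespace Pool.Agent.PVD.L.H65

theorem ii_bdd {g : ℝ → ℝ} (hg : Measurable g) {C a b : ℝ} (hab : a ≤ b)
    (hb : ∀ t, a ≤ t → t ≤ b → |g t| ≤ C) : IntervalIntegrable g volume a b := by
  rw [intervalIntegrable_iff_integrableOn_Ioc_of_le hab]
  refine Measure.integrableOn_of_bounded (M := C) ?_ hg.aestronglyMeasurable ?_
  · simp
  · refine (ae_restrict_iff' measurableSet_Ioc).mpr (Filter.Eventually.of_forall ?_)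
    intro t ht
    exact hb t ht.1.le ht.2

theorem sub_far (F : ℝ → ℝ) {e : ℝ} (h1 : e < 1) :
    ∫ t in e..1, F t = (1 - e) * ∫ x in (0:ℝ)..1, F ((1 - e) * x + e) := by
  have h2 : (1 - e) ≠ 0 := by linarith
  rw [intervalIntegral.integral_comp_mul_add F h2 e]
  rw [smul_eq_mul, ← mul_assoc, mul_inv_cancel₀ h2, one_mul]
  congr 1 <;> ring

theorem ph_pos {x : ℝ} (h : 0 ≤ x) : 1 / 64 ≤ ph x := by
  unfold ph; linarith

theorem ph_ne {x : ℝ} (h : 0 ≤ x) : ph x ≠ 0 := by
  have := ph_pos h; linarith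

theorem ph_meas : Measurable ph := by
  unfold ph; fun_prop

theorem f_far {e x : ℝ} (h0 : 0 < e) (h1 : e < 1) (hx : 0 ≤ x) :
    fm e (bas e (1 / 64)) ((1 - e) * x + e) = ph x := by
  rw [bas_far h0 h1 (by nlinarith)]
  unfold ph
  have h2 : 1 - e ≠ 0 := by linarith
  field_simp
  ring

theorem f_meas (e : ℝ) (m : Fin 4 → ℝ) : Measurable (fm e m) := (fm_cont e m).measurable

theorem f_pos {e t : ℝ} (h0 : 0 < e) (h1 : e < 1 / 128) (ht : 0 < t) (ht1 : t ≤ 1) :
    0 < fm e (bas e (1 / 64)) t :=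
  lt_of_lt_of_le ht ((bas_adm h0 h1 le_rfl (by norm_num)).lo t ht.le ht1)

theorem f_lo {e t : ℝ} (h0 : 0 < e) (h1 : e < 1 / 128) (ht : 0 ≤ t) (ht1 : t ≤ 1) :
    t ≤ fm e (bas e (1 / 64)) t :=
  (bas_adm h0 h1 le_rfl (by norm_num)).lo t ht ht1

/-- a quotient `c / f` with `|c| <= K f` is at most `K` in absolute value, also when `f = 0`. -/
theorem quot_le {c f K : ℝ} (hf : 0 ≤ f) (hK : 0 ≤ K) (h : |c| ≤ K * f) : |c / f| ≤ K := by
  rcases hf.eq_or_lt with h0 | h0
  · rw [← h0, div_zero, abs_zero]; exact hK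
  · rw [abs_div, abs_of_pos h0, div_le_iff₀ h0]; exact h

theorem aa_main {e : ℝ} (h0 : 0 < e) (h1 : e < 1 / 128) : |aa e (1 / 64) - A0| ≤ 129 * e := by
  have hm : Measurable (fun t : ℝ => cl e 1 t / fm e (bas e (1 / 64)) t) :=
    (cl_cont e 1).measurable.div (f_meas e _)
  have hb : ∀ t, 0 ≤ t → t ≤ 1 → |cl e 1 t / fm e (bas e (1 / 64)) t| ≤ 1 := by
    intro t ht ht1
    apply quot_le (le_trans ht (f_lo h0 h1 ht ht1)) zero_le_one
    rw [cl_one, abs_of_nonneg ht, one_mul]
    exact f_lo h0 h1 ht ht1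
  have hi1 : IntervalIntegrable (fun t : ℝ => cl e 1 t / fm e (bas e (1 / 64)) t) volume 0 e :=
    ii_bdd hm h0.le fun t ht ht1 => hb t ht (by linarith)
  have hi2 : IntervalIntegrable (fun t : ℝ => cl e 1 t / fm e (bas e (1 / 64)) t) volume e 1 :=
    ii_bdd hm (by linarith) fun t ht ht1 => hb t (by linarith) ht1
  have hs : aa e (1 / 64) = (∫ t in (0:ℝ)..e, cl e 1 t / fm e (bas e (1 / 64)) t)
      + ∫ t in e..1, cl e 1 t / fm e (bas e (1 / 64)) t := by
    unfold aa Hm
    rw [intervalIntegral.integral_add_adjacent_intervals hi1 hi2]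
  have hn : |∫ t in (0:ℝ)..e, cl e 1 t / fm e (bas e (1 / 64)) t| ≤ e := by
    have h3 := intervalIntegral.norm_integral_le_of_norm_le_const (a := 0) (b := e) (C := 1)
      (f := fun t : ℝ => cl e 1 t / fm e (bas e (1 / 64)) t) (by
        intro t ht
        rw [Set.uIoc_of_le h0.le] at ht
        exact hb t ht.1.le (by linarith [ht.2]))
    rw [sub_zero, abs_of_pos h0, one_mul] at h3
    exact h3
  have hf : |(∫ t in e..1, cl e 1 t / fm e (bas e (1 / 64)) t) - A0| ≤ 128 * e := by
    rw [sub_far _ (by linarith : e < 1)]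
    unfold A0
    rw [← intervalIntegral.integral_const_mul, ← intervalIntegral.integral_sub]
    · have h3 := intervalIntegral.norm_integral_le_of_norm_le_const (a := 0) (b := 1) (C := 128 * e)
        (f := fun x : ℝ => (1 - e) * (cl e 1 ((1 - e) * x + e) /
          fm e (bas e (1 / 64)) ((1 - e) * x + e)) - x / ph x) (by
          intro x hx
          rw [Set.uIoc_of_le zero_le_one] at hx
          rw [f_far h0 (by linarith) hx.1.le, cl_one]
          have hp := ph_pos hx.1.le
          have hp0 : (0:ℝ) < ph x := by linarith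
          have h5 : (1 - e) * (((1 - e) * x + e) / ph x) - x / ph x =
            (e * (1 - e) - e * (2 - e) * x) / ph x := by
            field_simp; ring
          rw [h5, Real.norm_eq_abs, abs_div, abs_of_pos hp0, div_le_iff₀ hp0]
          have h6 : |e * (1 - e) - e * (2 - e) * x| ≤ 2 * e := by
            rw [abs_le]
            have h7 : 0 ≤ x := hx.1.le
            have h8 : x ≤ 1 := hx.2
            constructor <;> nlinarith [mul_nonneg h0.le h7, mul_nonneg h0.le (sub_nonneg.mpr h8),
              mul_nonneg (mul_nonneg h0.le h0.le) h7]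
          nlinarith)
      rw [sub_zero, abs_one, mul_one] at h3
      exact h3
    · apply IntervalIntegrable.const_mul
      refine ii_bdd (C := 1) ?_ zero_le_one ?_
      · exact hm.comp (by fun_prop : Measurable (fun x : ℝ => (1 - e) * x + e))
      · intro x hx hx1
        exact hb _ (by nlinarith) (by nlinarith)
    · refine ii_bdd (C := 64) (measurable_id.div ph_meas) zero_le_one ?_
      intro x hx hx1
      have hp := ph_pos hx
      apply quot_le (by linarith) (by norm_num)
      rw [id, abs_of_nonneg hx]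
      linarith
  rw [hs]
  have := abs_add_le (∫ t in (0:ℝ)..e, cl e 1 t / fm e (bas e (1 / 64)) t)
    ((∫ t in e..1, cl e 1 t / fm e (bas e (1 / 64)) t) - A0)
  rw [← add_sub_assoc] at this
  linarith

theorem cc_main {e : ℝ} (h0 : 0 < e) (h1 : e < 1 / 128) :
    |cc e (1 / 64) - e * aa e (1 / 64)| ≤ 2 * e ^ 2 := by
  have hm : Measurable (fun t : ℝ => (cl e 3 t - e * t) / fm e (bas e (1 / 64)) t) :=
    ((cl_cont e 3).measurable.sub (by fun_prop)).div (f_meas e _)
  have hb : ∀ t, 0 ≤ t → t ≤ 1 → |(cl e 3 t - e * t) / fm e (bas e (1 / 64)) t| ≤ 1 := by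
    intro t ht ht1
    have h2 := f_lo h0 h1 ht ht1
    apply quot_le (le_trans ht h2) zero_le_one
    have h3 := cl_nonneg h0 (by linarith : e < 1) ht ht1 3
    have h4 := cl_three_le (e := e) (t := t)
    rw [abs_le]
    constructor <;> nlinarith
  have heq : cc e (1 / 64) - e * aa e (1 / 64) =
      ∫ t in (0:ℝ)..1, (cl e 3 t - e * t) / fm e (bas e (1 / 64)) t := by
    unfold cc aa Hm
    rw [← intervalIntegral.integral_const_mul, ← intervalIntegral.integral_sub]
    · apply intervalIntegral.integral_congr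
      intro t _
      simp only
      rw [cl_one, sub_div, mul_div_assoc]
    · refine ii_bdd (C := 1) ((cl_cont e 3).measurable.div (f_meas e _)) zero_le_one ?_
      intro t ht ht1
      have h2 := f_lo h0 h1 ht ht1
      apply quot_le (le_trans ht h2) zero_le_one
      have h3 := cl_nonneg h0 (by linarith : e < 1) ht ht1 3
      have h4 := cl_three_le (e := e) (t := t)
      rw [abs_of_nonneg h3]
      nlinarith
    · apply IntervalIntegrable.const_mul
      refine ii_bdd (C := 1) ((cl_cont e 1).measurable.div (f_meas e _)) zero_le_one ?_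
      intro t ht ht1
      have h2 := f_lo h0 h1 ht ht1
      apply quot_le (le_trans ht h2) zero_le_one
      rw [cl_one, abs_of_nonneg ht, one_mul]
      exact h2
  have he : (0:ℝ) ≤ 1 - e := by linarith
  have hi1 : IntervalIntegrable (fun t : ℝ => (cl e 3 t - e * t) / fm e (bas e (1 / 64)) t)
      volume 0 (1 - e) := ii_bdd hm he fun t ht ht1 => hb t ht (by linarith)
  have hi2 : IntervalIntegrable (fun t : ℝ => (cl e 3 t - e * t) / fm e (bas e (1 / 64)) t)
      volume (1 - e) 1 := ii_bdd hm (by linarith) fun t ht ht1 => hb t (by linarith) ht1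
  rw [heq, ← intervalIntegral.integral_add_adjacent_intervals hi1 hi2]
  have hz : (∫ t in (0:ℝ)..(1 - e), (cl e 3 t - e * t) / fm e (bas e (1 / 64)) t) = 0 := by
    rw [intervalIntegral.integral_congr (g := fun _ => (0:ℝ))]
    · simp
    · intro t ht
      rw [Set.uIcc_of_le he] at ht
      simp only
      rw [cl_three, min_eq_left ht.2]
      have : t - (1 - e) * t - e * t = 0 := by ring
      rw [this, zero_div]
  rw [hz, zero_add]
  have h3 := intervalIntegral.norm_integral_le_of_norm_le_const (a := 1 - e) (b := 1)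
    (C := 2 * e) (f := fun t : ℝ => (cl e 3 t - e * t) / fm e (bas e (1 / 64)) t) (by
      intro t ht
      rw [Set.uIoc_of_le (by linarith)] at ht
      have ht0 : 0 < t := by linarith [ht.1]
      have h2 := f_lo h0 h1 ht0.le ht.2
      rw [Real.norm_eq_abs]
      apply quot_le (le_trans ht0.le h2) (by linarith)
      rw [cl_three, min_eq_right ht.1.le]
      have h5 : 1 / 2 ≤ t := by linarith [ht.1]
      have h6 := ht.1
      have h7 := ht.2
      rw [abs_le]
      constructor <;> nlinarith)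
  rw [show (1:ℝ) - (1 - e) = e by ring, abs_of_pos h0] at h3
  calc _ ≤ 2 * e * e := h3
    _ = 2 * e ^ 2 := by ring

theorem gea : GeaStmt := by
  refine ⟨131, by norm_num, ?_⟩
  intro e h0 h1
  have ha := aa_main h0 h1
  have hc := cc_main h0 h1
  refine ⟨by linarith, ?_⟩
  have h2 : |cc e (1 / 64) - e * A0| ≤ |cc e (1 / 64) - e * aa e (1 / 64)|
      + |e * (aa e (1 / 64) - A0)| := by
    have := abs_add_le (cc e (1 / 64) - e * aa e (1 / 64)) (e * (aa e (1 / 64) - A0))
    have h3 : cc e (1 / 64) - e * aa e (1 / 64) + e * (aa e (1 / 64) - A0) =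
      cc e (1 / 64) - e * A0 := by ring
    rwa [h3] at this
  rw [abs_mul, abs_of_pos h0] at h2
  nlinarith

theorem b0_bd : 0 ≤ b0 ∧ b0 ≤ 64 := by
  unfold b0
  have h : ∀ x : ℝ, x ∈ Set.Icc (0:ℝ) 1 → 0 ≤ (1 - x) / ph x ∧ (1 - x) / ph x ≤ 64 := by
    intro x hx
    have hp := ph_pos hx.1
    have h1 := hx.1
    have h2 := hx.2
    refine ⟨div_nonneg (by linarith) (by linarith), ?_⟩
    rw [div_le_iff₀ (by linarith)]
    linarith
  have hi : IntervalIntegrable (fun x : ℝ => (1 - x) / ph x) volume 0 1 := by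
    refine ii_bdd (C := 64) ((by fun_prop : Measurable fun x : ℝ => 1 - x).div ph_meas)
      zero_le_one ?_
    intro x hx hx1
    show |(1 - x) / ph x| ≤ 64
    rw [abs_of_nonneg (h x ⟨hx, hx1⟩).1]
    exact (h x ⟨hx, hx1⟩).2
  constructor
  · exact intervalIntegral.integral_nonneg zero_le_one fun x hx => (h x hx).1
  · have := intervalIntegral.integral_mono_on zero_le_one hi
      (intervalIntegrable_const (c := (64:ℝ))) fun x hx => (h x hx).2
    simpa using this

theorem geh : GehStmt := by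
  refine ⟨192, by norm_num, ?_⟩
  intro e h0 h1
  have hm : Measurable (fun t : ℝ => cl e 2 t / fm e (bas e (1 / 64)) t) :=
    (cl_cont e 2).measurable.div (f_meas e _)
  have hb : ∀ t, 0 ≤ t → t ≤ 1 → |cl e 2 t / fm e (bas e (1 / 64)) t| ≤ 1 := by
    intro t ht ht1
    have h2 := f_lo h0 h1 ht ht1
    apply quot_le (le_trans ht h2) zero_le_one
    rw [abs_of_nonneg (cl_nonneg h0 (by linarith : e < 1) ht ht1 2), one_mul]
    exact le_trans (cl_le h0 (by linarith) ht 2 (by decide)) h2
  have hi1 : IntervalIntegrable (fun t : ℝ => cl e 2 t / fm e (bas e (1 / 64)) t) volume 0 e :=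
    ii_bdd hm h0.le fun t ht ht1 => hb t ht (by linarith)
  have hi2 : IntervalIntegrable (fun t : ℝ => cl e 2 t / fm e (bas e (1 / 64)) t) volume e 1 :=
    ii_bdd hm (by linarith) fun t ht ht1 => hb t (by linarith) ht1
  have hs : hh e (1 / 64) = (∫ t in (0:ℝ)..e, cl e 2 t / fm e (bas e (1 / 64)) t)
      + ∫ t in e..1, cl e 2 t / fm e (bas e (1 / 64)) t := by
    unfold hh Hm
    rw [intervalIntegral.integral_add_adjacent_intervals hi1 hi2]
  have hn : |∫ t in (0:ℝ)..e, cl e 2 t / fm e (bas e (1 / 64)) t| ≤ 64 * e * e := by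
    have h3 := intervalIntegral.norm_integral_le_of_norm_le_const (a := 0) (b := e) (C := 64 * e)
      (f := fun t : ℝ => cl e 2 t / fm e (bas e (1 / 64)) t) (by
        intro t ht
        rw [Set.uIoc_of_le h0.le] at ht
        have ht1 : t ≤ 1 := by linarith [ht.2]
        rw [Real.norm_eq_abs]
        apply quot_le (le_trans ht.1.le (f_lo h0 h1 ht.1.le ht1)) (by linarith)
        rw [abs_of_nonneg (cl_nonneg h0 (by linarith : e < 1) ht.1.le ht1 2),
          bas_near h0 (by linarith) ht.2]
        have h4 : 64 * e * (1 / 64 / e * t) = t := by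
          field_simp
        rw [h4]
        exact cl_le h0 (by linarith) ht.1.le 2 (by decide))
    rw [sub_zero, abs_of_pos h0] at h3
    exact h3
  have hf : (∫ t in e..1, cl e 2 t / fm e (bas e (1 / 64)) t) = e * (1 - e) ^ 2 * b0 := by
    rw [sub_far _ (by linarith : e < 1)]
    unfold b0
    rw [← intervalIntegral.integral_const_mul, ← intervalIntegral.integral_const_mul]
    apply intervalIntegral.integral_congr
    intro x hx
    rw [Set.uIcc_of_le zero_le_one] at hx
    simp only
    rw [f_far h0 (by linarith) hx.1, cl_two, min_eq_right (by nlinarith [hx.1])]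
    have hp := ph_pos hx.1
    have hp0 : ph x ≠ 0 := by linarith
    field_simp
    ring
  rw [hs, hf]
  have hb0 := b0_bd
  have h5 : |e * (1 - e) ^ 2 * b0 - e * b0| ≤ 128 * e ^ 2 := by
    have h6 : e * (1 - e) ^ 2 * b0 - e * b0 = -(e ^ 2 * (2 - e) * b0) := by ring
    rw [h6, abs_neg, abs_of_nonneg (mul_nonneg (mul_nonneg (sq_nonneg e) (by linarith)) hb0.1)]
    have h7 : (2 - e) * b0 ≤ 128 := by nlinarith [hb0.1, hb0.2]
    nlinarith [sq_nonneg e, mul_le_mul_of_nonneg_left h7 (sq_nonneg e)]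
  have h8 := abs_add_le (∫ t in (0:ℝ)..e, cl e 2 t / fm e (bas e (1 / 64)) t)
    (e * (1 - e) ^ 2 * b0 - e * b0)
  rw [← add_sub_assoc] at h8
  have h9 : 64 * e * e = 64 * e ^ 2 := by ring
  linarith

end Pool.Agent.PVD.L.H65
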