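import Pool.Agent.Helper3_PVD.CNT
import Pool.Agent.Helper72_PVD.WCT
import Pool.Agent.Helper20_PVD.LMU
import Pool.Agent.Helper28_PVD.XLG
import Pool.Agent.Helper32_PVD.AKX
import Pool.Agent.Helper41_PVD.LOG
import Pool.Agent.Helper10_PVD.WBD
import Pool.Agent.Helper25_PVD.REM
import Pool.Agent.Helper27_PVD.EXL
import Pool.Agent.Helper32_PVD.EXI
import Pool.Agent.Helper39_PVD.EXK
import Pool.Agent.Helper88_PVD.Exr
import Pool.Agent.Helper77_PVD.EXP
import Pool.Agent.Helper60_PVD.GG1
import Pool.Agent.Helper65_PVD.GEA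
import Pool.Agent.Helper14_PVD.GEJ
import Pool.Agent.Helper52_PVD.LGNU
import Pool.Agent.Helper9_PVD.G64
import Pool.Agent.Helper15_PVD.FIN

/-! MP_e25c73_gt, block L: assembly (helper65). -/

set_option autoImplicit false

namespace Pool.Agent.PVD.L.H65

theorem remT : RemStmt := H25.rem H10.wbd
theorem exlT : ExlStmt := H27.exl remT H41.gln H41.log_row H10.wbd
theorem exiT : ExiStmt := H32.exi remT H41.gin
theorem exkT : ExkStmt := H39.exk H28.xlg H32.akx
theorem exrT : ExrStmt := H88.exr remT exlT exiT exkT H10.wbd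
theorem expT : ExpStmt := H77.row remT exlT exiT exkT H10.wbd
theorem g64T : G64Stmt := H09.g64 gea geh H14.gej H52.gnu
theorem limT : LimStmt := H15.fin remT exlT exrT expT H10.wbd H60.gg1 g64T
theorem cntT : CntStmt := H3.cnt
theorem wctT : WctStmt := H72.wct cntT H10.wbd
theorem lmuT : LmuStmt := H20.lmu

end Pool.Agent.PVD.L.H65
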