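import Pool.Agent.PVD.StmtsM2

/-! MP_e25c73_gt, block M2, row MZR (helper65). -/

set_option autoImplicit false
open MeasureTheory Filter Topology Set

namespace Pool.Agent.PVD.M.H65

open Pool.Agent.PVD.L

theorem Ch_congr {n : ℕ} {R : Finset ℕ} {H H' : ℕ → ℝ} (h : ∀ r ∈ R, H r = H' r) :
    _root_.PVD.Ch n R H = _root_.PVD.Ch n R H' := by
  ext d
  constructor
  · rintro ⟨h1, h2⟩
    exact ⟨h1, fun r hr => (h2 r hr).trans (h r hr).le⟩
  · rintro ⟨h1, h2⟩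
    exact ⟨h1, fun r hr => (h2 r hr).trans (h r hr).ge⟩

theorem W_congr {n : ℕ} {R : Finset ℕ} {H H' : ℕ → ℝ} (h : ∀ r ∈ R, H r = H' r) :
    _root_.PVD.W n R H = _root_.PVD.W n R H' := by
  unfold _root_.PVD.W
  rw [Ch_congr h]

theorem dW_congr {n : ℕ} {R : Finset ℕ} {H H' : ℕ → ℝ} (h : ∀ r ∈ R, H r = H' r) {r : ℕ}
    (hr : r ∈ R) : _root_.PVD.dW n R H r = _root_.PVD.dW n R H' r := by
  unfold _root_.PVD.dW
  rw [h r hr]
  congr 1
  funext t
  apply W_congr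
  intro s hs
  by_cases hsr : s = r
  · subst hsr
    simp
  · rw [Function.update_of_ne hsr, Function.update_of_ne hsr]
    exact h s hs

theorem mzr (h1 : Mb1Stmt) (h3 : Mb3Stmt) (hw : _root_.PVD.WINStmt) (hkap : _root_.PVD.KAPStmt) :
    MzrStmt := by
  intro k m q d kap hL0 hm x _hx hKpos hLpos hlm hal hF
  have hk : 128 < k := hL0.1
  obtain ⟨hinj, hM, hn2, h2m, hRO, hHn, hsc, hR4, hEK, hEL, _hsum⟩ := h1 k m hk hm
  have hRO4 := hRO Finset.univ ⟨0, Finset.mem_univ 0⟩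
  have hmem : ∀ i, cm k m i ∈ CR k m Finset.univ := fun i =>
    Finset.mem_image_of_mem _ (Finset.mem_univ i)
  have hmemK : ∀ i ∈ AK, cm k m i ∈ CR k m AK := fun i hi => Finset.mem_image_of_mem _ hi
  have hmemL : ∀ i ∈ AL, cm k m i ∈ CR k m AL := fun i hi => Finset.mem_image_of_mem _ hi
  have hkR : (0:ℝ) < k := by exact_mod_cast (by omega : 0 < k)
  have hmR : (0:ℝ) < m := by exact_mod_cast (by omega : 0 < m)
  have hk1 : (1:ℝ) ≤ k := by exact_mod_cast (by omega : 1 ≤ k)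
  have hnR : (0:ℝ) < (nn k m : ℝ) := by exact_mod_cast (by omega : 0 < nn k m)
  have hAK0 : (0 : Fin 4) ∈ AK := by decide
  have hAK1 : (1 : Fin 4) ∈ AK := by decide
  have hAK2 : (2 : Fin 4) ∈ AK := by decide
  have hAL1 : (1 : Fin 4) ∈ AL := by decide
  have hAL2 : (2 : Fin 4) ∈ AL := by decide
  have hAL3 : (3 : Fin 4) ∈ AL := by decide
  obtain ⟨a, ha⟩ : ∃ a, a = hK k q x := ⟨_, rfl⟩
  obtain ⟨b, hb⟩ : ∃ b, b = hL k q d x := ⟨_, rfl⟩
  obtain ⟨l, hl⟩ : ∃ l, l = lm k q d x := ⟨_, rfl⟩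
  have hF0 := hF 0
  have hF1 := hF 1
  have hF2 := hF 2
  have hF3 := hF 3
  have hF4 := hF 4
  simp only [FF, Matrix.cons_val_zero, Matrix.cons_val_one, Matrix.cons_val] at hF0 hF1 hF2 hF3 hF4
  rw [← ha, ← hb, ← hl] at hF0 hF1 hF2 hF3 hF4
  rw [← ha] at hKpos hal
  rw [← hb] at hLpos
  rw [← hl] at hlm
  clear ha hb hl
  have ha0 := hKpos 0 hAK0
  have ha1 := hKpos 1 hAK1
  have ha2 := hKpos 2 hAK2
  have hb1 := hLpos 1 hAL1
  have hb2 := hLpos 2 hAL2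
  have hb3 := hLpos 3 hAL3
  obtain ⟨hwK, hEuK, _, _⟩ := h3 k m hk hm AK a ⟨0, hAK0⟩ hKpos
  obtain ⟨hwL, hEuL, _, _⟩ := h3 k m hk hm AL b ⟨1, hAL1⟩ hLpos
  -- volumes
  have hww : WW k m AL b = l * WW k m AK a := by
    unfold SS at hF2
    have hp : (0:ℝ) < (nn k m : ℝ) ^ (nn k m) := pow_pos hnR _
    rw [Real.log_mul hp.ne' hwL.ne', Real.log_mul hp.ne' hwK.ne'] at hF2
    have h5 : Real.log (WW k m AL b) = Real.log (l * WW k m AK a) := by
      rw [Real.log_mul hlm.ne' hwK.ne']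
      have h6 : (1 / (nn k m : ℝ)) * (Real.log (WW k m AL b) - Real.log (WW k m AK a)
          - Real.log l) = 0 := by linarith
      rcases mul_eq_zero.mp h6 with h7 | h7
      · exact absurd h7 (by positivity)
      · linarith
    exact Real.log_injOn_pos (Set.mem_Ioi.mpr hwL) (Set.mem_Ioi.mpr (mul_pos hlm hwK)) h5
  -- the polytope K
  obtain ⟨a', ha'⟩ : ∃ a', a' = Function.update a 3 (a 1 + 1) := ⟨_, rfl⟩
  obtain ⟨b', hb'⟩ : ∃ b', b' = Function.update b 0 ((nn k m : ℝ) * b 1 + 1) := ⟨_, rfl⟩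
  have ha'K : ∀ i ∈ AK, a' i = a i := by
    intro i hi
    rw [ha', Function.update_of_ne]
    rintro rfl
    revert hi; decide
  have ha'3 : a' 3 = a 1 + 1 := by rw [ha', Function.update_self]
  have hb'L : ∀ i ∈ AL, b' i = b i := by
    intro i hi
    rw [hb', Function.update_of_ne]
    rintro rfl
    revert hi; decide
  have hb'0 : b' 0 = (nn k m : ℝ) * b 1 + 1 := by rw [hb', Function.update_self]
  have hKag : ∀ r ∈ CR k m AK, Hn k m a' r = Hn k m a r := by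
    intro r hr
    obtain ⟨i, hi, rfl⟩ := Finset.mem_image.mp hr
    rw [hHn, hHn, ha'K i hi]
  have hLag : ∀ r ∈ CR k m AL, Hn k m b' r = Hn k m b r := by
    intro r hr
    obtain ⟨i, hi, rfl⟩ := Finset.mem_image.mp hr
    rw [hHn, hHn, hb'L i hi]
  have hsc0 : sc k m 0 = 1 := rfl
  have hsc1 : sc k m 1 = 1 := rfl
  have hsc2 : sc k m 2 = (k : ℝ) * m := rfl
  have hsc3 : sc k m 3 = (k : ℝ) * m := rfl
  have hc0 : cm k m 0 = 1 := rfl
  have hc1 : cm k m 1 = nn k m := rfl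
  have hc2 : cm k m 2 = m := rfl
  have hc3 : cm k m 3 = nn k m + 1 - m := rfl
  have hkap' := hkap (nn k m) (by omega)
  have hWK := hw (nn k m) (CR k m Finset.univ) (Hn k m a') (nn k m + 1 - m) (m : ℝ) hRO4
    (hc3 ▸ hmem 3) (by omega) (hc1 ▸ hmem 1) (fun j hj1 hj2 => hkap'.2.1 m (by omega) (by omega) j hj1 hj2)
    (by
      have e1 := hHn a' 1
      have e3 := hHn a' 3
      rw [hc1, hsc1, ha'K 1 hAK1, one_mul] at e1
      rw [hc3, hsc3, ha'3] at e3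
      rw [e1, e3]
      nlinarith [mul_pos hmR ha1, mul_nonneg (sub_nonneg.mpr hk1) (mul_pos hmR ha1).le,
        mul_pos hkR hmR]) hmR.le
  rw [hEK] at hWK
  have hWL := hw (nn k m) (CR k m Finset.univ) (Hn k m b') 1 (nn k m : ℝ) hRO4
    (hc0 ▸ hmem 0) (by omega) (hc1 ▸ hmem 1) (fun j hj1 hj2 => hkap'.1 j hj1 hj2)
    (by
      have e1 := hHn b' 1
      have e3 := hHn b' 0
      rw [hc1, hsc1, hb'L 1 hAL1, one_mul] at e1
      rw [hc0, hsc0, hb'0, one_mul] at e3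
      rw [e1, e3]
      linarith) hnR.le
  rw [hEL] at hWL
  -- derivatives of K and L
  obtain ⟨dK, hdK⟩ : ∃ dK : Fin 4 → ℝ, ∀ i, dK i =
    _root_.PVD.dW (nn k m) (CR k m AK) (Hn k m a) (cm k m i) := ⟨_, fun i => rfl⟩
  obtain ⟨dL, hdL⟩ : ∃ dL : Fin 4 → ℝ, ∀ i, dL i =
    _root_.PVD.dW (nn k m) (CR k m AL) (Hn k m b) (cm k m i) := ⟨_, fun i => rfl⟩
  have hDK : ∀ i ∈ AK, _root_.PVD.dW (nn k m) (CR k m Finset.univ) (Hn k m a') (cm k m i)
      = dK i := by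
    intro i hi
    rw [hWK.2.2 _ (hmemK i hi), hdK]
    exact dW_congr hKag (hmemK i hi)
  have hDL : ∀ i ∈ AL, _root_.PVD.dW (nn k m) (CR k m Finset.univ) (Hn k m b') (cm k m i)
      = dL i := by
    intro i hi
    rw [hWL.2.2 _ (hmemL i hi), hdL]
    exact dW_congr hLag (hmemL i hi)
  have halK : ∀ i, al k m AK a i * ((nn k m : ℝ) * WW k m AK a) = sc k m i * dK i := by
    intro i
    unfold al
    rw [hdK, div_mul_cancel₀]
    exact (mul_pos hnR hwK).ne'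
  have halL : ∀ i, al k m AL b i * ((nn k m : ℝ) * WW k m AL b) = sc k m i * dL i := by
    intro i
    unfold al
    rw [hdL, div_mul_cancel₀]
    exact (mul_pos hnR hwL).ne'
  obtain ⟨w, hwd⟩ : ∃ w, w = (nn k m : ℝ) * WW k m AK a := ⟨_, rfl⟩
  have hwpos : 0 < w := by rw [hwd]; exact mul_pos hnR hwK
  have hnwL : (nn k m : ℝ) * WW k m AL b = l * w := by rw [hww, hwd]; ring
  have hK' : ∀ i, al k m AK a i * w = sc k m i * dK i := by
    intro i; rw [hwd]; exact halK i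
  have hL' : ∀ i, l * al k m AL b i * w = sc k m i * dL i := by
    intro i
    rw [← halL i, hnwL]; ring
  have hEuK' : al k m AK a 0 * a 0 + al k m AK a 1 * a 1 + al k m AK a 2 * a 2 = 1 := by
    have : ∑ i ∈ AK, al k m AK a i * a i =
        al k m AK a 0 * a 0 + (al k m AK a 1 * a 1 + al k m AK a 2 * a 2) := by
      unfold AK
      rw [Finset.sum_insert (by decide), Finset.sum_insert (by decide), Finset.sum_singleton]
    rw [this] at hEuK
    linarith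
  have hEuL' : al k m AL b 1 * b 1 + al k m AL b 2 * b 2 + al k m AL b 3 * b 3 = 1 := by
    have : ∑ i ∈ AL, al k m AL b i * b i =
        al k m AL b 1 * b 1 + (al k m AL b 2 * b 2 + al k m AL b 3 * b 3) := by
      unfold AL
      rw [Finset.sum_insert (by decide), Finset.sum_insert (by decide), Finset.sum_singleton]
    rw [this] at hEuL
    linarith
  obtain ⟨x0, hx0⟩ : ∃ y, y = al k m AK a 0 := ⟨_, rfl⟩
  obtain ⟨x1, hx1⟩ : ∃ y, y = al k m AK a 1 := ⟨_, rfl⟩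
  obtain ⟨x2, hx2⟩ : ∃ y, y = al k m AK a 2 := ⟨_, rfl⟩
  obtain ⟨y1, hy1⟩ : ∃ y, y = al k m AL b 1 := ⟨_, rfl⟩
  obtain ⟨y2, hy2⟩ : ∃ y, y = al k m AL b 2 := ⟨_, rfl⟩
  obtain ⟨y3, hy3⟩ : ∃ y, y = al k m AL b 3 := ⟨_, rfl⟩
  have hK0 := hK' 0
  have hK1 := hK' 1
  have hK2 := hK' 2
  have hL1 := hL' 1
  have hL2 := hL' 2
  have hL3 := hL' 3
  rw [hsc0, ← hx0, one_mul] at hK0
  rw [hsc1, ← hx1, one_mul] at hK1
  rw [hsc2, ← hx2] at hK2
  rw [hsc1, ← hy1, one_mul] at hL1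
  rw [hsc2, ← hy2] at hL2
  rw [hsc3, ← hy3] at hL3
  rw [← hx0, ← hx1, ← hy1] at hF0
  rw [← hx2, ← hy2, ← hy3] at hF1
  rw [← hx0, ← hy3] at hF3
  rw [← hx0, ← hx1, ← hy1] at hF4
  rw [← hx0, ← hx1, ← hx2] at hEuK'
  rw [← hy1, ← hy2, ← hy3] at hEuL'
  rw [← hx0] at hal
  have hkm : (0:ℝ) < (k : ℝ) * m := mul_pos hkR hmR
  have E1 : dK 1 + dK 0 = dL 1 := by
    rw [← hK0, ← hK1, ← hL1]
    have : x1 * w + x0 * w - l * y1 * w = -((l * y1 - (x0 + x1)) * w) := by ring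
    rw [hF0] at this
    linarith
  have E2 : dK 1 * a 1 - dK 0 * a 0 = dL 1 * b 1 := by
    rw [← hK0, ← hK1, ← hL1]
    have : x1 * w * a 1 - x0 * w * a 0 - l * y1 * w * b 1 =
      -(-((x1 * a 1 - x0 * a 0) - l * (y1 * b 1))) * w := by ring
    rw [hF4] at this
    linarith
  have E3 : dK 2 = dL 2 + dL 3 := by
    have h7 : (k : ℝ) * m * (dK 2 - (dL 2 + dL 3)) = 0 := by
      have : (k : ℝ) * m * (dK 2 - (dL 2 + dL 3)) =
        (k : ℝ) * m * dK 2 - (k : ℝ) * m * dL 2 - (k : ℝ) * m * dL 3 := by ring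
      rw [this, ← hK2, ← hL2, ← hL3]
      have h8 : x2 * w - l * y2 * w - l * y3 * w = -((l * (y2 + y3) - x2) * w) := by ring
      rw [h8, hF1]; ring
    rcases mul_eq_zero.mp h7 with h8 | h8
    · exact absurd h8 hkm.ne'
    · linarith
  have E4' : x2 * a 2 = l * (y2 * b 2 - y3 * b 3) := by
    have h9 : x1 * a 1 + x2 * a 2 - x0 * a 0 = l * (y1 * b 1 + y2 * b 2 - y3 * b 3) := by
      have h10 : 1 - 2 * x0 * a 0 = x1 * a 1 + x2 * a 2 - x0 * a 0 := by linarith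
      have h11 : 1 - 2 * y3 * b 3 = y1 * b 1 + y2 * b 2 - y3 * b 3 := by linarith
      rw [← h10, ← h11]
      linarith
    have h12 : x1 * a 1 - x0 * a 0 = l * (y1 * b 1) := by linarith
    have h13 : l * (y1 * b 1 + y2 * b 2 - y3 * b 3) = l * (y1 * b 1)
      + l * (y2 * b 2 - y3 * b 3) := by ring
    linarith
  have E4 : dK 2 * ((k : ℝ) * m * a 2) = dL 2 * ((k : ℝ) * m * b 2)
      - dL 3 * ((k : ℝ) * m * b 3) := by
    have g1 : dK 2 * ((k : ℝ) * m * a 2) = (k : ℝ) * m * dK 2 * a 2 := by ring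
    have g2 : dL 2 * ((k : ℝ) * m * b 2) = (k : ℝ) * m * dL 2 * b 2 := by ring
    have g3 : dL 3 * ((k : ℝ) * m * b 3) = (k : ℝ) * m * dL 3 * b 3 := by ring
    rw [g1, g2, g3, ← hK2, ← hL2, ← hL3]
    have : x2 * w * a 2 = (x2 * a 2) * w := by ring
    rw [this, E4']; ring
  have hdK0 : 0 < dK 0 := by
    rw [← hK0]; exact mul_pos hal hwpos
  -- values of the support numbers
  have vK0 : Hn k m a' 1 = a 0 := by
    have := hHn a' 0
    rw [hc0, hsc0, one_mul, ha'K 0 hAK0] at this; exact this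
  have vK1 : Hn k m a' (nn k m) = a 1 := by
    have := hHn a' 1
    rw [hc1, hsc1, one_mul, ha'K 1 hAK1] at this; exact this
  have vK2 : Hn k m a' m = (k : ℝ) * m * a 2 := by
    have := hHn a' 2
    rw [hc2, hsc2, ha'K 2 hAK2] at this; exact this
  have vK3 : Hn k m a' (nn k m + 1 - m) = (k : ℝ) * m * (a 1 + 1) := by
    have := hHn a' 3
    rw [hc3, hsc3, ha'3] at this; exact this
  have vL0 : Hn k m b' 1 = (nn k m : ℝ) * b 1 + 1 := by
    have := hHn b' 0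
    rw [hc0, hsc0, one_mul, hb'0] at this; exact this
  have vL1 : Hn k m b' (nn k m) = b 1 := by
    have := hHn b' 1
    rw [hc1, hsc1, one_mul, hb'L 1 hAL1] at this; exact this
  have vL2 : Hn k m b' m = (k : ℝ) * m * b 2 := by
    have := hHn b' 2
    rw [hc2, hsc2, hb'L 2 hAL2] at this; exact this
  have vL3 : Hn k m b' (nn k m + 1 - m) = (k : ℝ) * m * b 3 := by
    have := hHn b' 3
    rw [hc3, hsc3, hb'L 3 hAL3] at this; exact this
  have D0 := hDK 0 hAK0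
  have D1 := hDK 1 hAK1
  have D2 := hDK 2 hAK2
  have D3 := hWK.2.1
  have G1 := hDL 1 hAL1
  have G2 := hDL 2 hAL2
  have G3 := hDL 3 hAL3
  have G0 := hWL.2.1
  rw [hc0] at D0
  rw [hc1] at D1 G1
  rw [hc2] at D2 G2
  rw [hc3] at G3
  rw [hR4] at D0 D1 D2 D3 G0 G1 G2 G3
  refine ⟨nn k m, m, Hn k m a', Hn k m b', by omega, by omega, h2m, ?_, ?_, ?_, ?_, ?_, ?_, ?_⟩
  · intro r hr
    rw [← hR4] at hr
    obtain ⟨i, _, rfl⟩ := Finset.mem_image.mp hr
    rw [hHn]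
    apply mul_pos (hsc i)
    fin_cases i
    · show 0 < a' 0
      rw [ha'K 0 hAK0]; exact ha0
    · show 0 < a' 1
      rw [ha'K 1 hAK1]; exact ha1
    · show 0 < a' 2
      rw [ha'K 2 hAK2]; exact ha2
    · show 0 < a' 3
      rw [ha'3]; linarith
  · intro r hr
    rw [← hR4] at hr
    obtain ⟨i, _, rfl⟩ := Finset.mem_image.mp hr
    rw [hHn]
    apply mul_pos (hsc i)
    fin_cases i
    · show 0 < b' 0
      rw [hb'0]; positivity
    · show 0 < b' 1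
      rw [hb'L 1 hAL1]; exact hb1
    · show 0 < b' 2
      rw [hb'L 2 hAL2]; exact hb2
    · show 0 < b' 3
      rw [hb'L 3 hAL3]; exact hb3
  · rw [D0, D1, G0, G1]; linarith
  · rw [D0, D1, G0, G1, vK0, vK1, vL0, vL1]; linarith
  · rw [D2, D3, G2, G3]; linarith
  · rw [D2, D3, G2, G3, vK2, vK3, vL2, vL3]; linarith
  · rw [D0, G0]; exact hdK0.ne'

end Pool.Agent.PVD.M.H65
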